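import Pool.Agent.L0h58.HY.Blind
import Pool.Agent.L0h58.HM.All

/-!
# The explicit functions are hard
-/

set_option autoImplicit false

namespace Pool.Agent.L0h58.HY

open Finset Polynomial Pool.Agent.L0h32.LT Pool.Agent.L0h32.LT2 Pool.Agent.L0h58.HN
  Pool.Agent.L0h58.HM Pool.Agent.L0h58.HX

theorem map_bv {R R' : Type} [CommRing R] [CommRing R'] (φ : R →+* R') (x : Bool) :
    φ (bv x) = bv x := by
  unfold bv
  split_ifs <;> simp

theorem map_vq {R R' : Type} [CommRing R] [CommRing R'] (φ : R →+* R') (θ a : R) (n ρ : ℕ)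
    (b : ℕ → Bool) : φ (vq θ a n ρ b) = vq (φ θ) (φ a) n ρ b := by
  have hch : ∀ i τ, φ (ch θ n ρ b i τ) = ch (φ θ) n ρ b i τ := by
    intro i τ
    unfold ch
    simp only [map_sum, map_mul, map_pow, map_bv]
  have hpa : φ (pa a n b) = pa (φ a) n b := by
    unfold pa
    simp only [map_sum, map_mul, map_pow, map_bv]
  have hwn : ∀ c i, φ (wn θ a n ρ b c i) = wn (φ θ) (φ a) n ρ b c i := by
    intro c i
    induction i with
    | zero => simp only [wn, map_zero]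
    | succ i ih => simp only [wn, map_add, map_mul, ih, hch, hpa]
  have hac : ∀ c i, φ (ac θ a n ρ b c i) = ac (φ θ) (φ a) n ρ b c i := by
    intro c i
    induction i with
    | zero => simp only [ac, map_zero]
    | succ i ih => simp only [ac, map_add, map_mul, ih, hch, hwn]
  unfold vq
  simp only [map_add, map_mul, hac]

theorem fx_iff {N g : ℕ} {F : Type} [Field F] [Algebra (ZMod 2) F] (θ : F)
    (hθ : ∀ q : (ZMod 2)[X], irrPoly (2 * g) ∣ q ↔ aeval θ q = 0) (y : Fin N → Bool) :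
    fx N g y = true ↔ ∃ u : Fin g → Bool,
      vq θ (∑ j : Fin g, bv (u j) * θ ^ (j : ℕ)) (N / (26 * g + 1)) (2 * g) (bit y) = 0 := by
  classical
  unfold fx
  rw [decide_eq_true_iff]
  apply exists_congr
  intro u
  rw [hθ]
  have h1 := map_vq ((aeval θ : (ZMod 2)[X] →ₐ[ZMod 2] F) : (ZMod 2)[X] →+* F) X
    (∑ j : Fin g, bv (u j) * X ^ (j : ℕ)) (N / (26 * g + 1)) (2 * g) (bit y)
  rw [map_sum] at h1
  simp only [map_mul, map_pow, map_bv, RingHom.coe_coe, aeval_X] at h1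
  rw [h1]

/-- **The explicit functions are hard.** -/
theorem all4 (hdet : S_DET2) (huni : S_UNI) (hhnk : S_HNK) (hcnt : S_CNT) (hfld : S_FLD)
    (hexp : S_EXPL) (hres : S_RESB) :
    ∃ A : ℕ, ∀ k : ℕ, 1 ≤ k → ∃ W : ℕ, 1 ≤ W ∧ W ≤ 2 ^ (A * k ^ 3) ∧
      ∀ N g : ℕ, 1 ≤ g → N ≤ 2 ^ g → W * g ≤ N →
      ∀ T ≤ k * N, ∀ h : ℕ, 1 ≤ h → W * (h * (Nat.log 2 N + 1)) ≤ N →
        Blind2 N T (2 ^ ((N : ℝ) / (W * h))) ((N : ℝ) / g * (1 / 2) ^ g) ((1 / 2) ^ h)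
          (fx N g) := by
  refine ⟨131072 * 32770 ^ 3 + 111, fun k hk => ?_⟩
  obtain ⟨W, hW1, hW2, hbase⟩ := base4 hdet huni hhnk hcnt (32768 * k)
  have hWb : 2 ^ 111 * W ≤ 2 ^ ((131072 * 32770 ^ 3 + 111) * k ^ 3) := by
    have h2 : (32768 * k + 2) ^ 3 ≤ 32770 ^ 3 * k ^ 3 := by
      rw [← mul_pow]
      exact Nat.pow_le_pow_left (by omega) 3
    have h3 : 1 ≤ k ^ 3 := Nat.one_le_pow _ _ hk
    calc 2 ^ 111 * W ≤ 2 ^ 111 * 2 ^ (131072 * (32768 * k + 2) ^ 3) := Nat.mul_le_mul_left _ hW2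
      _ = 2 ^ (111 + 131072 * (32768 * k + 2) ^ 3) := (pow_add _ _ _).symm
      _ ≤ 2 ^ ((131072 * 32770 ^ 3 + 111) * k ^ 3) := by
        apply Nat.pow_le_pow_right (by norm_num)
        have h4 : (131072 * 32770 ^ 3 + 111) * k ^ 3 =
            131072 * (32770 ^ 3 * k ^ 3) + 111 * k ^ 3 := by ring
        rw [h4]
        omega
  refine ⟨2 ^ 111 * W, Nat.mul_le_mul Nat.one_le_two_pow hW1, hWb, fun N g hg1 hNg hWg T hT h hh hWh => ?_⟩
  clear hWb hW2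
  -- the sizes
  have hg96 : 96 ≤ g := by
    have h1 : 2 ^ 111 * 1 * 1 ≤ 2 ^ 111 * W * g :=
      Nat.mul_le_mul (Nat.mul_le_mul_left _ hW1) hg1
    have h2 : 2 ^ 111 ≤ 2 ^ g := by
      rw [mul_one, mul_one] at h1
      exact h1.trans (hWg.trans hNg)
    have h3 := (Nat.pow_le_pow_iff_right (by norm_num)).1 h2
    omega
  have hWg' : 32768 * (W * g) ≤ N := by
    refine le_trans ?_ hWg
    rw [mul_assoc]
    exact Nat.mul_le_mul_right _ (by norm_num)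
  have hWh' : 32768 * (W * (h * (Nat.log 2 N + 1))) ≤ N := by
    refine le_trans ?_ hWh
    rw [mul_assoc]
    exact Nat.mul_le_mul_right _ (by norm_num)
  have hgW : g ≤ W * g := Nat.le_mul_of_pos_left _ (by omega)
  obtain ⟨n₁, hn₁⟩ : ∃ n₁, n₁ = N / (26 * g + 1) := ⟨_, rfl⟩
  obtain ⟨n₂, hn₂⟩ : ∃ n₂, n₂ = n₁ / 2 := ⟨_, rfl⟩
  obtain ⟨η, hη⟩ : ∃ η, η = g / 96 := ⟨_, rfl⟩
  obtain ⟨n, hn⟩ : ∃ n, n = n₂ * η := ⟨_, rfl⟩
  have hN1 : n₁ * (26 * g + 1) ≤ N := by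
    rw [hn₁]
    exact Nat.div_mul_le_self _ _
  have hN2 : N < (26 * g + 1) * (n₁ + 1) := by
    rw [hn₁]
    exact Nat.lt_mul_div_succ _ (by omega)
  have hn12 : 2 ≤ n₁ := by
    rw [hn₁, Nat.le_div_iff_mul_le (by omega)]
    omega
  have hn21 : 1 ≤ n₂ := by omega
  have hη1 : 1 ≤ η := by omega
  have hη96 : 96 * η ≤ g := by omega
  have hgη : g ≤ 192 * η := by omega
  have hNn : N ≤ 32768 * n := by
    have h1 : (26 * g + 1) * (n₁ + 1) ≤ (27 * g) * (4 * n₂) :=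
      Nat.mul_le_mul (by omega) (by omega)
    have h2 : (27 * g) * (4 * n₂) ≤ (27 * (192 * η)) * (4 * n₂) :=
      Nat.mul_le_mul_right _ (Nat.mul_le_mul_left _ hgη)
    have h3 : (27 * (192 * η)) * (4 * n₂) = 20736 * n := by
      rw [hn]
      ring
    omega
  have hnN : n ≤ N := by
    refine le_trans ?_ hN1
    rw [hn]
    exact Nat.mul_le_mul (by omega) (by omega)
  have hn0 : 0 < n := by
    rw [hn]
    exact Nat.mul_pos hn21 hη1
  -- the field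
  obtain ⟨F, _, _, _, e, θ, hF2, hpb, hθ⟩ := hfld (2 * g) (by omega)
  obtain ⟨K, S, hK1, hK2, hb⟩ := hbase g n₂ η n (2 * g) F e θ hn rfl hpb hF2 hη1 hη96
    (hnN.trans hNg) (by omega)
  subst hn
  obtain ⟨src, cst, hsrc⟩ := hexp N g n₁ n₂ η K F e θ hpb hK1 hη1 (by omega) hn21 (by omega) hN1 S
  have hf : ∀ x : Inp (n₂ * η), fx N g (ext src cst x) = true ↔ ∃ u : Fin g → Bool,
      qf (fun c => ∑ d : Fin K, (∑ j : Fin g, bv (u j) * θ ^ (j : ℕ)) ^ (d : ℕ) *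
        blk (bhank η e θ S : Fin (n₂ * η) → (Fin K × Fin 6 × Fin (2 * g) → ZMod 2)) e x d c) =
          0 := by
    intro x
    rw [fx_iff θ hθ, ← hn₁]
    apply exists_congr
    intro u
    rw [hsrc]
  have hb2 := hb (fun x => fx N g (ext src cst x)) hf T (by
    calc T ≤ k * N := hT
      _ ≤ k * (32768 * (n₂ * η)) := Nat.mul_le_mul_left _ hNn
      _ = 32768 * k * (n₂ * η) := by ring) h hh (by
    have h6 : W * (h * (Nat.log 2 (n₂ * η) + 1)) ≤ W * (h * (Nat.log 2 N + 1)) :=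
      Nat.mul_le_mul_left _ (Nat.mul_le_mul_left _ (Nat.succ_le_succ (Nat.log_mono_right hnN)))
    omega)
  have hb3 := hres N (n₂ * η) T _ _ _ src cst (fx N g) _ hn0 (fun x => rfl) hb2
  have hNr : (N : ℝ) ≤ 32768 * ((n₂ * η : ℕ) : ℝ) := by exact_mod_cast hNn
  have hNr' : ((n₂ * η : ℕ) : ℝ) ≤ N := by exact_mod_cast hnN
  have hWr : (0 : ℝ) < W := by exact_mod_cast hW1
  have hhr : (0 : ℝ) < h := by exact_mod_cast hh
  refine blind2_mono ?_ ?_ hb3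
  · apply Real.rpow_le_rpow_of_exponent_le (by norm_num)
    rw [div_le_div_iff₀ (by positivity) (by positivity)]
    have h6 : (0 : ℝ) ≤ W * h := by positivity
    have h7 : (32768 * (W : ℝ)) ≤ ((2 ^ 111 * W : ℕ) : ℝ) := by
      exact_mod_cast Nat.mul_le_mul_right W (by norm_num : 32768 ≤ 2 ^ 111)
    calc (N : ℝ) * (W * h) ≤ 32768 * ((n₂ * η : ℕ) : ℝ) * (W * h) :=
          mul_le_mul_of_nonneg_right hNr h6
      _ = ((n₂ * η : ℕ) : ℝ) * h * (32768 * W) := by ring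
      _ ≤ ((n₂ * η : ℕ) : ℝ) * h * ((2 ^ 111 * W : ℕ) : ℝ) :=
        mul_le_mul_of_nonneg_left h7 (by positivity)
      _ = _ := by ring
  · exact mul_le_mul_of_nonneg_right
      (div_le_div_of_nonneg_right hNr' (Nat.cast_nonneg g)) (by positivity)

end Pool.Agent.L0h58.HY
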