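import Pool.Agent.L0h58.HY.Num

/-!
# Randomized programs are blind
-/

set_option autoImplicit false

namespace Pool.Agent.L0h58.HY

open Finset Pool.Agent.L0h32.LT Pool.Agent.L0h32.LT2 Pool.Agent.L0h58.HN Pool.Agent.L0h58.HM
  Pool.Agent.L0h58.HX

theorem blind4 (hdet : S_DET2) {k k' y n g ρ N K s Δ m e h d D E C1 C2 C3 W G t b : ℕ} {F : Type}
    [Field F] [Fintype F] [Algebra (ZMod 2) F] (hk' : k' = k + 2)
    (hd : d = dx (2 * k') y) (hD : D = 2 ^ d) (hE : E = 2 ^ y) (ht1 : 1 ≤ t) (hG : G = D * t)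
    (hbE : 33554432 * (b * t) ≤ E) (hb2 : 1048576 * G ≤ 2 ^ b)
    (hC1 : C1 = 64 * k' * E ^ 2 * D ^ 2) (hC2 : C2 = 2 * 4 ^ ee (2 * k') y * (4 + 2 * k'))
    (hC3 : C3 = 2 * C1 * (k + 1) + 2)
    (hW : W = 1048576 * G * ((C3 + 1) * ((2 * k' + 1) * C2 + 1))) (hC1W : C1 ≤ W)
    (hn0 : 0 < n) (hn : 2097152 * G ≤ n) (hng : n ≤ 2 ^ g) (hg1 : 1 ≤ g)
    (hx : 64 * (s + 2 * (3 * Δ)) ≤ n) (hgn : 64 * g ≤ n)
    (hρ : ρ = 2 * g) (hN : N = 2 ^ g) (hN4 : 4 ≤ N)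
    (hm1 : 2 * D * m ≤ n) (hΔ2 : n < 131072 * G * (Δ + 1))
    (he1 : 16 * n < E * D * (e + 1)) (he2 : E * D * e ≤ 16 * n)
    (hF2 : Fintype.card F = 2 ^ ρ) (e' : (Fin ρ → ZMod 2) ≃ₗ[ZMod 2] F)
    (M : Fin n → (Fin K × Fin 6 × Fin ρ → ZMod 2))
    (hM : ∀ A : Finset (Fin n), m ≤ A.card →
      K * (6 * ρ) ≤ Module.finrank (ZMod 2) (Submodule.span (ZMod 2) (M '' A)) + s)
    (τ : Fin N → F) (hτ : Function.Injective τ)
    (hbud : s + 2 * (3 * Δ) + 2 * ρ ≤ ρ * K) (h2N : 2 * N ≤ 2 ^ (3 * Δ))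
    (f : Inp n → Bool) (hf : ∀ x, f x = true ↔ ∃ t, qf (ev τ (blk M e' x) t) = 0)
    (hone : ∀ f' : Finset (Inp n), (∀ x, x ∈ f' ↔ f x = true) →
      Fintype.card F ^ 3 * f'.card ≤ N * 2 ^ n * (Fintype.card F ^ 2 + 1))
    (hI : (Idx n e).card * 2 ^ (b * n) ≤ 2 ^ (b * e) * (2 ^ b + 2) ^ n)
    {T : ℕ} (hT : T ≤ k * n) (hh : 1 ≤ h) (hWh : W * (h * (Nat.log 2 n + 1)) ≤ n) :
    Blind2 n T (2 ^ ((n : ℝ) / (W * h))) ((n : ℝ) / g * (1 / 2) ^ g) ((1 / 2) ^ h) f := by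
  classical
  intro Ω _ p V _ P U hp hp1 hcard a β hb ho hz
  have hD1 : 1 ≤ D := by
    rw [hD]
    exact Nat.one_le_two_pow
  have hC11 : 1 ≤ C1 := by
    rw [hC1, hk', hE]
    have : 0 < 64 * (k + 2) * (2 ^ y) ^ 2 * D ^ 2 := by positivity
    exact this
  have hC31 : 1 ≤ C3 := by
    rw [hC3]
    exact Nat.succ_le_succ (Nat.zero_le _)
  have hC1h : C1 * h ≤ n := by
    refine le_trans ?_ hWh
    exact Nat.mul_le_mul hC1W (Nat.le_mul_of_pos_right _ (by omega))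
  obtain ⟨ℓ, r, hℓ1, hℓ2, hr1, hr2, hr3⟩ := segments' hk' hC11 hC3 hh hC1h
  obtain ⟨σ, hσ⟩ : ∃ σ, σ = C2 * h := ⟨_, rfl⟩
  have hσ1 : 1 ≤ σ := by
    rw [hσ, hC2]
    have : 0 < 2 * 4 ^ ee (2 * k') y * (4 + 2 * k') * h := by positivity
    exact this
  have hTr : T ≤ r * ℓ := by
    refine (hT.trans ?_).trans hr1
    exact Nat.mul_le_mul_right _ (by omega)
  have hTn : T + n ≤ r * ℓ := by
    refine le_trans ?_ hr1
    rw [Nat.succ_mul]
    omega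
  have hNN : N ^ 2 = Fintype.card F := by rw [hF2, hN, hρ, ← pow_mul, mul_comm]
  obtain ⟨κ, hκ⟩ : ∃ κ : ℝ, κ = 2 * ((s + 2 * (3 * Δ)) / ρ : ℕ) + 2 := ⟨_, rfl⟩
  have hI2 : ((Fintype.card (Inp n) : ℕ) : ℝ) = 2 ^ n := by
    rw [Fintype.card_fun, Fintype.card_bool, Fintype.card_fin]
    push_cast
    rfl
  have hNr : (0 : ℝ) < N := by
    have : 0 < N := by omega
    exact_mod_cast this
  have hqr : (0 : ℝ) < Fintype.card F := by
    rw [← hNN]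
    push_cast
    positivity
  have hexh : (0 : ℝ) ≤ 1 / 2 * (1 / 2) ^ h := by positivity
  have key : ∀ ω, ∀ A B : Finset (Inp n),
      (∀ x, x ∈ A ↔ ((P ω).step x)^[T] (P ω).start ∈ U ω) →
      (∀ x, x ∈ B ↔ ((P ω).step x)^[T] (P ω).start ∈ U ω ∧ f x = true) → (N : ℝ) * A.card ≤
      (Fintype.card F : ℝ) * B.card + κ * A.card +
        N * (1 / 2 * (1 / 2) ^ h * Fintype.card (Inp n)) := by
    intro ω A B hA hB
    have h1 := hdet k' y n r ℓ σ K N ρ s Δ m e F e' M τ hτ hN4 hNN.le hF2 hbud h2N (by omega) hn0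
      hσ1 hℓ1 hr2 (by rw [← hd, ← hD]; exact hm1) (by rw [← hd, ← hD, ← hE]; exact he1) hM (V ω)
      (pad hn0 (P ω).var (P ω).next (P ω).out T) (P ω).start
      (fun β x i => cov_pad hn0 (P ω).var (P ω).next (P ω).out T hℓ1 hTn β x i) (U ω)
    have h2 : ∀ x, (bd (pad hn0 (P ω).var (P ω).next (P ω).out T) ℓ (P ω).start x r ∈ U ω) ↔
        ((P ω).step x)^[T] (P ω).start ∈ U ω := by
      intro x
      rw [bd_pad hn0 (P ω) hTr x]
    have h3 : (univ.filter fun x : Inp n => bd (pad hn0 (P ω).var (P ω).next (P ω).out T) ℓ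
        (P ω).start x r ∈ U ω) = A := by
      ext x
      rw [mem_filter, hA, h2]
      exact ⟨fun h => h.2, fun h => ⟨mem_univ _, h⟩⟩
    have h4 : (univ.filter fun x : Inp n => bd (pad hn0 (P ω).var (P ω).next (P ω).out T) ℓ
        (P ω).start x r ∈ U ω ∧ ∃ t, qf (ev τ (blk M e' x) t) = 0) = B := by
      ext x
      rw [mem_filter, hB, h2, hf]
      exact ⟨fun h => h.2, fun h => ⟨mem_univ _, h⟩⟩
    rw [h3, h4] at h1
    refine h1.trans ?_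
    have h5 := exc_le4 (v := Nat.card (V ω)) (e := e) (r := r) (ℓ := ℓ) (by omega) hh hd hD hE ht1 hG
      hbE hb2 hC1 hC2 hW hℓ1 hℓ2 hr3 hσ hWh hn he2 hΔ2 hI (hcard ω)
    rw [hκ, hI2]
    have h6 : exc2 k' y n r ℓ σ e (3 * Δ) (Nat.card (V ω)) * 2 ^ n ≤
        1 / 2 * (1 / 2) ^ h * 2 ^ n :=
      mul_le_mul_of_nonneg_right h5 (by positivity)
    have h7 := mul_le_mul_of_nonneg_left h6 hNr.le
    linarith
  have hε : ∀ A : Finset (Inp n), (∀ x, x ∈ A ↔ f x = true) → (Fintype.card F : ℝ) * A.card ≤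
      N * (1 + 1 / (Fintype.card F : ℝ) ^ 2) * Fintype.card (Inp n) := by
    intro A hA
    have h1 := hone A hA
    have h2 : (Fintype.card F : ℝ) ^ 3 * A.card ≤
        N * 2 ^ n * ((Fintype.card F : ℝ) ^ 2 + 1) := by exact_mod_cast h1
    rw [hI2]
    generalize (A.card : ℝ) = c at h2 ⊢
    generalize (Fintype.card F : ℝ) = q at h2 hqr ⊢
    have h3 : (1 + 1 / q ^ 2) = (q ^ 2 + 1) / q ^ 2 := by
      field_simp
    rw [h3, mul_div_assoc', div_mul_eq_mul_div, le_div_iff₀ (by positivity)]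
    calc q * c * q ^ 2 = q ^ 3 * c := by ring
      _ ≤ _ := h2
      _ = _ := by ring
  obtain ⟨ε, hεε⟩ : ∃ ε : ℝ, ε = 1 / (Fintype.card F : ℝ) ^ 2 := ⟨_, rfl⟩
  have hNN' : (N : ℝ) = 2 ^ g := by
    rw [hN]
    push_cast
    rfl
  have hq' : (Fintype.card F : ℝ) = 2 ^ (2 * g) := by
    rw [hF2, hρ]
    push_cast
    rfl
  have hκ' : κ = 2 * ((s + 2 * (3 * Δ)) / (2 * g) : ℕ) + 2 := by
    rw [hκ, hρ]
  obtain ⟨w, hw⟩ : ∃ w, w = (s + 2 * (3 * Δ)) / (2 * g) := ⟨_, rfl⟩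
  rw [← hw] at hκ'
  obtain ⟨hs1, hs2⟩ := side4 (ε := ε) hg1 hng hw hx hgn hκ' hNN' hq' hεε
  rw [← hεε] at hε
  have hε0 : 0 ≤ ε := by
    rw [hεε]
    positivity
  have hκ0 : 0 ≤ κ := by
    rw [hκ]
    positivity
  have hav := avg2 p (fun ω x => ((P ω).step x)^[T] (P ω).start ∈ U ω) (fun x => f x = true) N
    (Fintype.card F) κ (1 / 2 * (1 / 2) ^ h) ε a β hp hp1 hNr hqr hκ0 hs1 hs2 hexh hε0
    Fintype.card_pos hb key hε ho (fun x hx => hz x (by simpa using hx))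
  exact adv4 (n := n) (g := g) (ex := 1 / 2 * (1 / 2) ^ h) (h := h)
    hg1 hng hw hx hgn le_rfl hexh hb hκ' hNN' hq' hεε hav


/-- The elements of the field given by the guesses. -/
theorem exists_tau {g ρ : ℕ} {F : Type} [Field F] [Fintype F] [Algebra (ZMod 2) F]
    (e : (Fin ρ → ZMod 2) ≃ₗ[ZMod 2] F) (θ : F) (hpb : PowBasis e θ) (hg : g ≤ ρ) :
    ∃ τ : Fin (2 ^ g) → F, Function.Injective τ ∧ ∀ p : F → Prop,
      (∃ t, p (τ t)) ↔ ∃ u : Fin g → Bool, p (∑ j : Fin g, bv (u j) * θ ^ (j : ℕ)) := by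
  obtain ⟨φ⟩ : Nonempty (Fin (2 ^ g) ≃ (Fin g → Bool)) :=
    ⟨(Fintype.equivFinOfCardEq (by simp)).symm⟩
  refine ⟨fun t => ∑ j : Fin g, bv (φ t j) * θ ^ (j : ℕ), ?_, fun p => ?_⟩
  · have key : ∀ u : Fin g → Bool, ∑ j : Fin g, bv (u j) * θ ^ (j : ℕ) =
        e (fun a => if h : (a : ℕ) < g then (if u ⟨a, h⟩ then 1 else 0) else 0) := by
      intro u
      rw [hpb]
      have h1 : ∀ a : Fin ρ, (if h : (a : ℕ) < g then (if u ⟨a, h⟩ = true then (1 : ZMod 2) else 0)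
          else 0) • θ ^ (a : ℕ) =
          if h : (a : ℕ) < g then bv (u ⟨a, h⟩) * θ ^ (a : ℕ) else 0 := by
        intro a
        by_cases h : (a : ℕ) < g
        · rw [dif_pos h, dif_pos h]
          unfold bv
          split_ifs <;> simp
        · rw [dif_neg h, dif_neg h, zero_smul]
      rw [Finset.sum_congr rfl fun a _ => h1 a]
      symm
      rw [← Finset.sum_subset (Finset.subset_univ (univ.image (Fin.castLE hg)))]
      · rw [Finset.sum_image (fun a _ b _ h => Fin.castLE_injective hg h)]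
        apply Finset.sum_congr rfl
        intro j _
        rw [dif_pos (by simp)]
        simp
      · intro a _ ha
        rw [dif_neg]
        intro h
        apply ha
        rw [Finset.mem_image]
        exact ⟨⟨a, h⟩, mem_univ _, by ext; simp⟩
    intro t t' htt
    simp only [key] at htt
    have h2 := e.injective htt
    apply φ.injective
    funext j
    have h3 := congrFun h2 (Fin.castLE hg j)
    simp only [Fin.val_castLE, Fin.is_lt, dif_pos, Fin.eta] at h3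
    cases h4 : φ t j <;> cases h5 : φ t' j <;> simp_all
  · constructor
    · rintro ⟨t, ht⟩
      exact ⟨φ t, ht⟩
    · rintro ⟨u, hu⟩
      refine ⟨φ.symm u, ?_⟩
      simpa using hu

/-- **Assembly for one time bound.** -/
theorem base4 (hdet : S_DET2) (huni : S_UNI) (hhnk : S_HNK) (hcnt : S_CNT) (k : ℕ) :
    ∃ W : ℕ, 1 ≤ W ∧ W ≤ 2 ^ (131072 * (k + 2) ^ 3) ∧
      ∀ (g n₂ η n ρ : ℕ) (F : Type) [Field F] [Fintype F] [Algebra (ZMod 2) F]
        (e : (Fin ρ → ZMod 2) ≃ₗ[ZMod 2] F) (θ : F), n = n₂ * η → ρ = 2 * g → PowBasis e θ →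
        Fintype.card F = 2 ^ ρ → 1 ≤ η → 96 * η ≤ g → n ≤ 2 ^ g → W * g ≤ n →
        ∃ (K : ℕ) (S : ℕ → F), 1 ≤ K ∧ K ≤ n₂ ∧
          ∀ f : Inp n → Bool, (∀ x, f x = true ↔ ∃ u : Fin g → Bool,
              qf (fun c => ∑ d : Fin K, (∑ j : Fin g, bv (u j) * θ ^ (j : ℕ)) ^ (d : ℕ) *
                blk (bhank η e θ S : Fin n → (Fin K × Fin 6 × Fin ρ → ZMod 2)) e x d c) = 0) →
          ∀ T ≤ k * n, ∀ h : ℕ, 1 ≤ h → W * (h * (Nat.log 2 n + 1)) ≤ n →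
            Blind2 n T (2 ^ ((n : ℝ) / (W * h))) ((n : ℝ) / g * (1 / 2) ^ g) ((1 / 2) ^ h) f := by
  classical
  obtain ⟨k', hk'⟩ : ∃ k', k' = k + 2 := ⟨_, rfl⟩
  obtain ⟨y, hy, hd2⟩ := par6 (J := 2 * k') (by omega)
  obtain ⟨d, hd⟩ : ∃ d, d = dx (2 * k') y := ⟨_, rfl⟩
  rw [← hd] at hy hd2
  obtain ⟨D, hD⟩ : ∃ D, D = 2 ^ d := ⟨_, rfl⟩
  obtain ⟨E, hE⟩ : ∃ E, E = 2 ^ y := ⟨_, rfl⟩
  rw [← hE] at hy
  obtain ⟨t, ht⟩ : ∃ t, t = 4 * d + 32 := ⟨_, rfl⟩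
  obtain ⟨b, hb⟩ : ∃ b, b = 2 * d + 32 := ⟨_, rfl⟩
  rw [← ht, ← hb] at hy
  obtain ⟨G, hG⟩ : ∃ G, G = D * t := ⟨_, rfl⟩
  have hD1 : 1 ≤ D := by
    rw [hD]
    exact Nat.one_le_two_pow
  have hE1 : 1 ≤ E := by
    rw [hE]
    exact Nat.one_le_two_pow
  have ht1 : 1 ≤ t := by omega
  have hG1 : 1 ≤ G := by
    rw [hG]
    exact Nat.mul_le_mul hD1 ht1
  obtain ⟨C1, hC1⟩ : ∃ C1, C1 = 64 * k' * E ^ 2 * D ^ 2 := ⟨_, rfl⟩
  obtain ⟨C2, hC2⟩ : ∃ C2, C2 = 2 * 4 ^ ee (2 * k') y * (4 + 2 * k') := ⟨_, rfl⟩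
  obtain ⟨C3, hC3⟩ : ∃ C3, C3 = 2 * C1 * (k + 1) + 2 := ⟨_, rfl⟩
  obtain ⟨W, hW⟩ : ∃ W, W = 1048576 * G * ((C3 + 1) * ((2 * k' + 1) * C2 + 1)) := ⟨_, rfl⟩
  obtain ⟨hW2, hC1W, hWt, hWG⟩ := size_Y hk' hd hd2 hD hE ht hG hC1 hC2 hC3 hW
  have hW1 : 1 ≤ W := by omega
  have hb2 : 1048576 * G ≤ 2 ^ b := by
    have h1 : t ≤ 2 ^ (d + 6) := by
      have h2 : d + 1 ≤ 2 ^ d := Nat.lt_two_pow_self
      rw [pow_add]
      omega
    calc 1048576 * G = 2 ^ 20 * (2 ^ d * t) := by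
          rw [hG, hD]
          norm_num
      _ ≤ 2 ^ 20 * (2 ^ d * 2 ^ (d + 6)) :=
          Nat.mul_le_mul_left _ (Nat.mul_le_mul_left _ h1)
      _ = 2 ^ (20 + (d + (d + 6))) := by rw [pow_add 2 20, pow_add 2 d (d + 6)]
      _ ≤ 2 ^ b := Nat.pow_le_pow_right (by norm_num) (by omega)
  refine ⟨W, hW1, hW2, ?_⟩
  intro g n₂ η n ρ F _ _ _ e' θ hn2 hρ hpb hF2 hη1 hηg hng hWg
  clear hW2
  have hg96 : 96 ≤ g := by omega
  have hWn : W ≤ n := le_trans (Nat.le_mul_of_pos_right _ (by omega)) hWg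
  have hnB : 2097152 * G ≤ n := hWG.trans hWn
  have hn0 : 0 < n := by omega
  have hWtg : 1048576 * G * (t + 1) * g ≤ n := (Nat.mul_le_mul_right _ hWt).trans hWg
  have hGg : 1048576 * (G * g) ≤ n := by
    refine le_trans ?_ hWtg
    calc 1048576 * (G * g) = 1048576 * G * 1 * g := by ring
      _ ≤ 1048576 * G * (t + 1) * g :=
        Nat.mul_le_mul_right _ (Nat.mul_le_mul_left _ (by omega))
  have hgG : g ≤ G * g := Nat.le_mul_of_pos_left _ (by omega)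
  -- the parameters
  obtain ⟨N, hN⟩ : ∃ N, N = 2 ^ g := ⟨_, rfl⟩
  have hN4 : 4 ≤ N := by
    rw [hN]
    calc 4 = 2 ^ 2 := by norm_num
      _ ≤ 2 ^ g := Nat.pow_le_pow_right (by norm_num) (by omega)
  obtain ⟨K, hK⟩ : ∃ K, K = n / (4096 * G * ρ) := ⟨_, rfl⟩
  have hρ1 : 0 < ρ := by omega
  have hposK : 0 < 4096 * G * ρ := by positivity
  have hK128 : 128 * (t + 1) ≤ K := by
    rw [hK, Nat.le_div_iff_mul_le hposK, hρ]
    refine le_trans (le_of_eq ?_) hWtg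
    ring
  have hKn2 : K ≤ n₂ := by
    rw [hK]
    apply Nat.div_le_of_le_mul
    rw [hn2, Nat.mul_comm]
    apply Nat.mul_le_mul_right
    calc η ≤ ρ := by omega
      _ ≤ 4096 * G * ρ := Nat.le_mul_of_pos_left _ (by positivity)
  obtain ⟨P, hP⟩ : ∃ P, P = K * ρ := ⟨_, rfl⟩
  have hPK : ρ * K = P := by rw [hP, Nat.mul_comm]
  have hK1 : 4096 * G * P ≤ n := by
    have : 4096 * G * ρ * K ≤ n := by
      rw [hK]
      exact Nat.mul_div_le _ _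
    rw [hP]
    refine le_trans (le_of_eq ?_) this
    ring
  have hK2 : n < 4096 * G * (P + ρ) := by
    have h1 : n < 4096 * G * ρ * (K + 1) := by
      rw [hK]
      exact Nat.lt_mul_div_succ _ hposK
    refine h1.trans_le (le_of_eq ?_)
    rw [hP]
    ring
  have hPG : P ≤ G * P := Nat.le_mul_of_pos_left _ (by omega)
  have hK1' : 4096 * (G * P) ≤ n := by
    rw [← mul_assoc]
    exact hK1
  have hKP : 128 * (t + 1) ≤ P := by
    rw [hP]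
    exact hK128.trans (Nat.le_mul_of_pos_right _ hρ1)
  have hρP : 64 * ρ ≤ P := by
    rw [hP]
    exact Nat.mul_le_mul_right _ (by omega)
  obtain ⟨m, hm⟩ : ∃ m, m = n / (2 * D) := ⟨_, rfl⟩
  have hm1 : 2 * D * m ≤ n := by
    rw [hm]
    exact Nat.mul_div_le _ _
  have hm2 : n < 2 * D * (m + 1) := by
    rw [hm]
    exact Nat.lt_mul_div_succ _ (by omega)
  obtain ⟨Δ, hΔ⟩ : ∃ Δ, Δ = n / (131072 * G) := ⟨_, rfl⟩
  have hΔ1 : 131072 * G * Δ ≤ n := by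
    rw [hΔ]
    exact Nat.mul_div_le _ _
  have hΔ2 : n < 131072 * G * (Δ + 1) := by
    rw [hΔ]
    exact Nat.lt_mul_div_succ _ (by omega)
  obtain ⟨e, he⟩ : ∃ e, e = 16 * n / (E * D) := ⟨_, rfl⟩
  have hED : 0 < E * D := by positivity
  have he1 : 16 * n < E * D * (e + 1) := by
    rw [he]
    exact Nat.lt_mul_div_succ _ hED
  have he2 : E * D * e ≤ 16 * n := by
    rw [he]
    exact Nat.mul_div_le _ _
  obtain ⟨s, hs⟩ : ∃ s, s = K * ρ / 8 := ⟨_, rfl⟩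
  have hsP : 8 * s ≤ P := by
    rw [hs, ← hP]
    exact Nat.mul_div_le _ _
  -- the budget
  have hΔP : 32 * Δ < P + ρ := by
    have h1 : 4096 * G * (32 * Δ) < 4096 * G * (P + ρ) := by
      refine lt_of_le_of_lt ?_ hK2
      refine le_trans (le_of_eq ?_) hΔ1
      ring
    exact Nat.lt_of_mul_lt_mul_left h1
  have hbud : s + 2 * (3 * Δ) + 2 * ρ ≤ ρ * K := by
    rw [hPK]
    omega
  have hgΔ : g ≤ Δ := by
    rw [hΔ, Nat.le_div_iff_mul_le (by omega)]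
    refine le_trans ?_ hGg
    calc g * (131072 * G) = 131072 * (G * g) := by ring
      _ ≤ _ := Nat.mul_le_mul_right _ (by norm_num)
  have h2N : 2 * N ≤ 2 ^ (3 * Δ) := by
    rw [hN, ← pow_succ']
    exact Nat.pow_le_pow_right (by norm_num) (by omega)
  have hx : 64 * (s + 2 * (3 * Δ)) ≤ n := by omega
  have hgn : 64 * g ≤ n := by omega
  -- the matrix
  obtain ⟨T', hT'⟩ : ∃ T', T' = 128 * t := ⟨_, rfl⟩
  obtain ⟨m', hm'⟩ : ∃ m', m' = m / T' := ⟨_, rfl⟩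
  obtain ⟨q1, q2, q3⟩ := hnk_cond (K := K) (ρ := ρ) (η := η) (d := d) (n := n) ht hT'
    (by rw [← hD]; exact hm2) (by
      rw [hm, Nat.le_div_iff_mul_le (by omega), ← hP]
      refine le_trans (le_of_eq ?_) hK1
      rw [hT', hG]
      ring) (by rw [← hP]; omega) (by omega) hm'
  rw [← hs] at q1
  obtain ⟨S, hM, hA, hB⟩ := hhnk n η K ρ m m' s t T' F e' θ hpb hη1 (by omega) ht1 (by omega)
    q1 q2 q3 (by
      have : 6 * K * ρ = 6 * P := by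
        rw [hP]
        ring
      rw [this]
      omega)
  refine ⟨K, S, by omega, hKn2, ?_⟩
  intro f hf T hT h hh hWh
  subst hN
  obtain ⟨τ, hτ, hτp⟩ := exists_tau (g := g) e' θ hpb (by omega)
  obtain ⟨M, hMM⟩ : ∃ M : Fin n → (Fin K × Fin 6 × Fin ρ → ZMod 2), M = bhank η e' θ S :=
    ⟨_, rfl⟩
  rw [← hMM] at hM hA hB hf
  have hcA : ((univ.filter fun i : Fin n => (i : ℕ) < n / 2 : Finset (Fin n)) : Set (Fin n)) =
      {i : Fin n | (i : ℕ) < n / 2} := by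
    ext i
    simp
  have hcB : ((univ.filter fun i : Fin n => ¬ (i : ℕ) < n / 2 : Finset (Fin n)) : Set (Fin n)) =
      {i : Fin n | ¬ (i : ℕ) < n / 2} := by
    ext i
    simp
  have hone := huni n K (2 ^ g) ρ 0 F e' M τ hτ hF2 (by omega)
    (univ.filter fun i : Fin n => (i : ℕ) < n / 2)
    (univ.filter fun i : Fin n => ¬ (i : ℕ) < n / 2)
    (disjoint_filter_filter_not _ _ _) (filter_union_filter_not_eq _ _)
    (by
      rw [add_zero, hcA]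
      exact hA)
    (by
      rw [add_zero, hcB]
      exact hB)
  refine blind4 hdet hk' hd hD hE ht1 hG hy hb2 hC1 hC2 hC3 hW hC1W hn0 hnB hng (by omega) hx hgn
    hρ rfl hN4 hm1 hΔ2 he1 he2 hF2 e' M hM τ hτ hbud h2N f (fun x => ?_) (fun f' hf' => ?_) ?_
    hT hh hWh
  · rw [hf]
    exact (hτp fun a => qf (fun c => ∑ d : Fin K, a ^ (d : ℕ) * blk M e' x d c) = 0).symm
  · have h1 : f' = univ.filter fun x : Inp n => ∃ t, qf (ev τ (blk M e' x) t) = 0 := by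
      ext x
      rw [hf', hf, mem_filter]
      constructor
      · intro hu
        exact ⟨mem_univ _, (hτp fun a =>
          qf (fun c => ∑ d : Fin K, a ^ (d : ℕ) * blk M e' x d c) = 0).2 hu⟩
      · intro hu
        exact (hτp fun a =>
          qf (fun c => ∑ d : Fin K, a ^ (d : ℕ) * blk M e' x d c) = 0).1 hu.2
    rw [h1]
    rw [pow_zero] at hone
    exact hone
  · have h1 := hcnt n e b
    unfold Idx
    refine le_trans (le_of_eq ?_) h1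
    congr 2

end Pool.Agent.L0h58.HY
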