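import Pool.Agent.L0h58.HY.All
import Pool.Agent.L0h58.HM.Final3
import Pool.Agent.L0h2.HY.EXPL
import Pool.Agent.L0h21.HY.HNK
import Pool.Agent.L0h48.HY.HNKB
import Pool.Agent.L0h85.HY.FLD
import Pool.Agent.L0h88.HY.HNKA
import Pool.Agent.L0h93.HY.RESB
import Pool.Agent.L0h95.HY.NONX

/-!
# All parts together, for the explicit functions
-/

set_option autoImplicit false

namespace Pool.Agent.L0h58.HY

open Finset Pool.Agent.L0h32.LT Pool.Agent.L0h32.LT2 Pool.Agent.L0h58.HN Pool.Agent.L0h58.HM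

/-- The functions are easy with nondeterminism. -/
theorem easy5 : ∀ n g : ℕ, 1 ≤ g → NonP n g (2 ^ (27 * g)) (fx n g) :=
  Pool.Agent.L0h95.HY.t_NONX Pool.Agent.L0h85.HY.t_FLD

/-- The functions are hard. -/
theorem family5 :
      ∃ A : ℕ, ∀ k : ℕ, 1 ≤ k → ∃ W : ℕ, 1 ≤ W ∧ W ≤ 2 ^ (A * k ^ 3) ∧
        ∀ n g : ℕ, 1 ≤ g → n ≤ 2 ^ g → W * g ≤ n →
        ∀ T ≤ k * n, ∀ h : ℕ, 1 ≤ h → W * (h * (Nat.log 2 n + 1)) ≤ n →
          Blind2 n T (2 ^ ((n : ℝ) / (W * h))) ((n : ℝ) / g * (1 / 2) ^ g) ((1 / 2) ^ h)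
            (fx n g) := by
  have hMGF := Pool.Agent.L0h85.HN.t_MGF
  have hVDM := Pool.Agent.L0h85.HN.t_VDM
  have hFIB := Pool.Agent.LLead.LT2.t_FIB
  have hLAB := t_LAB2 (Pool.Agent.L0h37.HN.t_CON hMGF)
    (Pool.Agent.L0h85.HN.t_SMP hMGF) Pool.Agent.L0h37.HN.t_SELX
  have hRCT := Pool.Agent.L0h11.HN.t_RCT
    (Pool.Agent.L0h76.HN.t_COR2 Pool.Agent.L0h37.HN.t_DEN2) hVDM hFIB
  have hUNI := Pool.Agent.L0h85.HN.t_UNI Pool.Agent.L0h76.HN.t_ZER2 hVDM hFIB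
  exact all4 (t_DET2 hLAB hRCT) hUNI
    (Pool.Agent.L0h21.HY.t_HNK Pool.Agent.L0h88.HY.t_HNKA Pool.Agent.L0h48.HY.t_HNKB)
    Pool.Agent.LLead.LT.t_CNT Pool.Agent.L0h85.HY.t_FLD Pool.Agent.L0h2.HY.t_EXPL
    Pool.Agent.L0h93.HY.t_RESB

/-- Everything in terms of one constant. -/
theorem family6 :
      ∃ A : ℕ, ∀ k n g h T : ℕ, 1 ≤ k → 1 ≤ g → 1 ≤ h → n ≤ 2 ^ g →
        (2 : ℝ) ^ (A * k ^ 3) * g ≤ n → (2 : ℝ) ^ (A * k ^ 3) * (h * Nat.log 2 n) ≤ n →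
        T ≤ k * n → ∃ W : ℕ, 1 ≤ W ∧ 2 * W * (h * (Nat.log 2 n + 1)) ≤ n ∧
          (2 : ℝ) ^ ((n : ℝ) / (2 ^ (A * k ^ 3) * h)) ≤ 2 ^ ((n : ℝ) / (2 * W * h)) ∧
          (2 : ℝ) ^ ((n : ℝ) / (2 ^ (A * k ^ 3) * h)) ≤ 2 ^ ((n : ℝ) / (W * h)) ∧
          Blind2 n T (2 ^ ((n : ℝ) / (W * h))) ((n : ℝ) / g * (1 / 2) ^ g) ((1 / 2) ^ h)
            (fx n g) := by
  obtain ⟨A, hA⟩ := family5
  refine ⟨A + 2, fun k n g h T hk hg hh hng h1 h2 hT => ?_⟩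
  obtain ⟨W, hW, hW2, hB⟩ := hA k hk
  have hk3 : 1 ≤ k ^ 3 := Nat.one_le_pow _ _ hk
  have h4W : 4 * W ≤ 2 ^ ((A + 2) * k ^ 3) := by
    calc 4 * W ≤ 4 * 2 ^ (A * k ^ 3) := Nat.mul_le_mul_left _ hW2
      _ = 2 ^ (A * k ^ 3 + 2) := by
        rw [pow_add]
        ring
      _ ≤ 2 ^ ((A + 2) * k ^ 3) := Nat.pow_le_pow_right (by norm_num) (by
        rw [Nat.add_mul]
        omega)
  have h4Wr : 4 * (W : ℝ) ≤ 2 ^ ((A + 2) * k ^ 3) := by exact_mod_cast h4W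
  have hWr : (0 : ℝ) < W := by exact_mod_cast hW
  have hhr : (0 : ℝ) < h := by exact_mod_cast hh
  clear hW2 h4W
  generalize (2 : ℝ) ^ ((A + 2) * k ^ 3) = X at h1 h2 h4Wr ⊢
  have hX : 0 < X := by linarith
  have g1 : 4 * W * g ≤ n := by
    have : (4 * (W : ℝ)) * g ≤ n :=
      (mul_le_mul_of_nonneg_right h4Wr (Nat.cast_nonneg _)).trans h1
    exact_mod_cast this
  have g2 : 4 * W * (h * Nat.log 2 n) ≤ n := by
    have : (4 * (W : ℝ)) * (h * Nat.log 2 n) ≤ n :=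
      (mul_le_mul_of_nonneg_right h4Wr (by positivity)).trans h2
    exact_mod_cast this
  have hn4 : 4 ≤ n := by
    refine le_trans ?_ g1
    calc 4 = 4 * 1 * 1 := by norm_num
      _ ≤ 4 * W * g := Nat.mul_le_mul (Nat.mul_le_mul_left _ hW) hg
  have hlog : 1 ≤ Nat.log 2 n := (Nat.le_log_iff_pow_le (by norm_num) (by omega)).2 (by omega)
  have g3 : 2 * W * (h * (Nat.log 2 n + 1)) ≤ n := by
    refine le_trans ?_ g2
    calc 2 * W * (h * (Nat.log 2 n + 1)) ≤ 2 * W * (h * (2 * Nat.log 2 n)) :=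
          Nat.mul_le_mul_left _ (Nat.mul_le_mul_left _ (by omega))
      _ = 4 * W * (h * Nat.log 2 n) := by ring
  refine ⟨W, hW, g3, ?_, ?_, hB n g hg hng ?_ T hT h hh ?_⟩
  · apply Real.rpow_le_rpow_of_exponent_le (by norm_num)
    apply div_le_div_of_nonneg_left (Nat.cast_nonneg _) (by positivity)
    exact mul_le_mul_of_nonneg_right (by linarith) hhr.le
  · apply Real.rpow_le_rpow_of_exponent_le (by norm_num)
    apply div_le_div_of_nonneg_left (Nat.cast_nonneg _) (by positivity)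
    exact mul_le_mul_of_nonneg_right (by linarith) hhr.le
  · exact (Nat.mul_le_mul_right _ (by omega)).trans g1
  · exact (Nat.mul_le_mul_right _ (by omega)).trans g3

end Pool.Agent.L0h58.HY
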