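import Pool.Agent.L0h58.HY.Final

/-!
# Lemmas for the definition of the explicit function
-/

set_option autoImplicit false

namespace Pool.Agent.L0h58.HY

open Finset Polynomial Pool.Agent.L0h32.LT Pool.Agent.L0h32.LT2 Pool.Agent.L0h58.HN
  Pool.Agent.L0h58.HM Pool.Agent.L0h58.HX

/-- The polynomials of degree less than `g`. -/
theorem exists_degree_lt {g : ℕ} (p : (ZMod 2)[X] → Prop) :
    (∃ u : Fin g → Bool, p (∑ j : Fin g, bv (u j) * X ^ (j : ℕ))) ↔
      ∃ a : (ZMod 2)[X], a.degree < g ∧ p a := by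
  have hbv : ∀ x : Bool, (bv x : (ZMod 2)[X]) = C (if x = true then (1 : ZMod 2) else 0) := by
    intro x
    unfold bv
    split_ifs <;> simp
  constructor
  · rintro ⟨u, hu⟩
    refine ⟨_, ?_, hu⟩
    simp only [hbv]
    exact degree_sum_fin_lt _
  · rintro ⟨a, ha, hp⟩
    refine ⟨fun j => decide (a.coeff j = 1), ?_⟩
    have h1 : ∑ j : Fin g, (bv (decide (a.coeff j = 1)) : (ZMod 2)[X]) * X ^ (j : ℕ) = a := by
      ext i
      rw [finsetSum_coeff]
      simp only [hbv, coeff_C_mul, coeff_X_pow]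
      by_cases hi : i < g
      · rw [Finset.sum_eq_single (⟨i, hi⟩ : Fin g)]
        · rw [if_pos rfl, mul_one]
          have h2 : ∀ z : ZMod 2, (if decide (z = 1) = true then (1 : ZMod 2) else 0) = z := by
            decide
          exact h2 _
        · intro j _ hj
          have h4 : ¬ i = (j : ℕ) := by
            intro h
            apply hj
            ext
            exact h.symm
          rw [if_neg h4, mul_zero]
        · intro h
          exact absurd (mem_univ _) h
      · have h3 : a.coeff i = 0 := by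
          apply coeff_eq_zero_of_degree_lt
          refine ha.trans_le ?_
          exact_mod_cast Nat.le_of_not_lt hi
        rw [h3]
        apply Finset.sum_eq_zero
        intro j _
        have h4 : ¬ i = (j : ℕ) := fun h => hi (h ▸ j.isLt)
        rw [if_neg h4, mul_zero]
    rw [h1]
    exact hp

/-- The sums of the windows. -/
theorem ac_sum {R : Type} [CommRing R] (θ a : R) (n ρ : ℕ) (b : ℕ → Bool) (c i : ℕ) :
    ac θ a n ρ b c i = ∑ j ∈ range i, ch θ n ρ b j 12 * wn θ a n ρ b c (j + 1) := by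
  induction i with
  | zero => rfl
  | succ i ih => rw [sum_range_succ, ← ih, ac]

/-- The number of nodes. -/
theorem nodes_le3 {n g : ℕ} (hg : 1 ≤ g) (hn : n ≤ 2 ^ g) :
    (g + 1) * 2 ^ g + (n + 1) * 2 ^ (27 * g) ≤ 2 ^ (30 * g) := by
  have h1 : g + 1 ≤ 2 ^ g := Nat.lt_two_pow_self
  have h2 : n + 1 ≤ 2 ^ (g + 1) := by
    have h3 : 1 ≤ 2 ^ g := Nat.one_le_two_pow
    rw [pow_succ]
    omega
  calc (g + 1) * 2 ^ g + (n + 1) * 2 ^ (27 * g) ≤
      2 ^ g * 2 ^ g + 2 ^ (g + 1) * 2 ^ (27 * g) :=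
        Nat.add_le_add (Nat.mul_le_mul_right _ h1) (Nat.mul_le_mul_right _ h2)
    _ = 2 ^ (g + g) + 2 ^ (g + 1 + 27 * g) := by rw [← pow_add, ← pow_add]
    _ ≤ 2 ^ (29 * g) + 2 ^ (29 * g) := by
      apply Nat.add_le_add
      · exact Nat.pow_le_pow_right (by norm_num) (by omega)
      · exact Nat.pow_le_pow_right (by norm_num) (by omega)
    _ = 2 ^ (29 * g + 1) := by rw [pow_succ]; ring
    _ ≤ 2 ^ (30 * g) := Nat.pow_le_pow_right (by norm_num) (by omega)

end Pool.Agent.L0h58.HY
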