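import Pool.Agent.L0h58.HY.Stm
import Pool.Agent.L0h58.HM.Blind3

/-!
# Numbers for the explicit functions
-/

set_option autoImplicit false

namespace Pool.Agent.L0h58.HY

open Finset Pool.Agent.L0h32.LT Pool.Agent.L0h32.LT2 Pool.Agent.L0h58.HN Pool.Agent.L0h58.HM

/-- The exponents. -/
theorem expo4 {n G t D E C2 C3 W r σ h e Δ a l b : ℕ} (hD1 : 1 ≤ D) (ht1 : 1 ≤ t)
    (hG : G = D * t)
    (hE : 33554432 * (b * t) ≤ E) (hb : 1048576 * G ≤ 2 ^ b)
    (hW : W = 1048576 * G * ((C3 + 1) * (a * C2 + 1))) (hh : 1 ≤ h) (hl : 1 ≤ l)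
    (hhn : W * (h * l) ≤ n) (hn : 2097152 * G ≤ n) (hr : r + 1 ≤ C3 * h) (hσ : σ = C2 * h)
    (he : E * D * e ≤ 16 * n) (hΔ : n < 131072 * G * (Δ + 1)) :
    16 + (((C3 + 1) * l * (a * σ) + h : ℕ) : ℝ) + (r + 1) * (1 / (W * h) * n) +
      b * e + 4 * n / 2 ^ b < ((3 * Δ : ℕ) : ℝ) := by
  have hG1 : 1 ≤ G := by
    rw [hG]
    exact Nat.mul_le_mul hD1 ht1
  have hGr : (0 : ℝ) < G := by exact_mod_cast hG1
  have hhr : (1 : ℝ) ≤ h := by exact_mod_cast hh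
  have hlr : (1 : ℝ) ≤ l := by exact_mod_cast hl
  have hW0 : (0 : ℝ) < W := by
    have : 0 < W := by rw [hW]; positivity
    exact_mod_cast this
  obtain ⟨u, hu⟩ : ∃ u : ℝ, u = n / (2097152 * G) := ⟨_, rfl⟩
  have hn' : (n : ℝ) = 2097152 * G * u := by
    rw [hu]
    field_simp
  have hu1 : 1 ≤ u := by
    rw [hu, le_div_iff₀ (by positivity), one_mul]
    exact_mod_cast hn
  have a1 : (C3 + 1) * (a * C2 + 1) * (h * l) * (1048576 * G) ≤ n := by
    refine le_trans (le_of_eq ?_) hhn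
    rw [hW]
    ring
  have a1r : ((C3 : ℝ) + 1) * (a * C2 + 1) * (h * l) ≤ 2 * u := by
    have : (((C3 + 1) * (a * C2 + 1) * (h * l) * (1048576 * G) : ℕ) : ℝ) ≤ n := by
      exact_mod_cast a1
    push_cast at this
    rw [hn'] at this
    have h2 : ((C3 : ℝ) + 1) * (a * C2 + 1) * (h * l) * (1048576 * G) ≤
        (2 * u) * (1048576 * G) := by
      linarith
    exact le_of_mul_le_mul_right h2 (by positivity)
  have a2 : (((C3 + 1) * l * (a * σ) : ℕ) : ℝ) = ((C3 : ℝ) + 1) * (a * C2) * (h * l) := by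
    rw [hσ]
    push_cast
    ring
  have a3 : (h : ℝ) ≤ ((C3 : ℝ) + 1) * 1 * (h * l) := by
    have h1 : (h : ℝ) * 1 ≤ h * l := mul_le_mul_of_nonneg_left hlr (by positivity)
    have h2 : (1 : ℝ) * (h * l) ≤ (C3 + 1) * (h * l) := by
      apply mul_le_mul_of_nonneg_right _ (by positivity)
      have : (0 : ℝ) ≤ C3 := Nat.cast_nonneg _
      linarith
    linarith
  have a8 : ((C3 : ℝ) + 1) * (a * C2 + 1) * (h * l) =
      ((C3 : ℝ) + 1) * (a * C2) * (h * l) + ((C3 : ℝ) + 1) * 1 * (h * l) := by ring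
  have a4 : ((r : ℝ) + 1) * (1 / (W * h) * n) ≤ 2 * u := by
    have h1 : ((r : ℝ) + 1) ≤ C3 * h := by exact_mod_cast hr
    have h2 : ((r : ℝ) + 1) * (1 / (W * h) * n) ≤ C3 * h * (1 / (W * h) * n) :=
      mul_le_mul_of_nonneg_right h1 (by positivity)
    refine h2.trans ?_
    have h3 : (C3 : ℝ) * h * (1 / (W * h) * n) = C3 * n / W := by
      field_simp
    rw [h3, div_le_iff₀ hW0]
    have h4 : (C3 : ℝ) * (1048576 * G) ≤ W := by
      have : C3 * (1048576 * G) ≤ W := by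
        rw [hW]
        calc C3 * (1048576 * G) = 1048576 * G * (C3 * 1) := by ring
          _ ≤ 1048576 * G * ((C3 + 1) * (a * C2 + 1)) :=
            Nat.mul_le_mul_left _ (Nat.mul_le_mul (by omega) (by omega))
      exact_mod_cast this
    rw [hn']
    calc (C3 : ℝ) * (2097152 * G * u) = 2 * u * (C3 * (1048576 * G)) := by ring
      _ ≤ 2 * u * W := mul_le_mul_of_nonneg_left h4 (by positivity)
  have a5 : (b : ℝ) * e ≤ u := by
    have h1 : 33554432 * (b * t) * D * e ≤ 16 * n := by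
      refine le_trans ?_ he
      exact Nat.mul_le_mul_right _ (Nat.mul_le_mul_right _ hE)
    have h2 : b * e * (2097152 * G) ≤ n := by
      have h3 : 16 * (b * e * (2097152 * G)) = 33554432 * (b * t) * D * e := by
        rw [hG]
        ring
      omega
    rw [hu, le_div_iff₀ (by positivity)]
    exact_mod_cast h2
  have a6 : 4 * (n : ℝ) / 2 ^ b ≤ 8 * u := by
    have h1 : (1048576 * G : ℝ) ≤ 2 ^ b := by exact_mod_cast hb
    rw [div_le_iff₀ (by positivity), hn']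
    calc 4 * (2097152 * G * u) = 8 * u * (1048576 * G) := by ring
      _ ≤ 8 * u * 2 ^ b := mul_le_mul_of_nonneg_left h1 (by positivity)
  have a7 : 16 * u - 1 < (Δ : ℝ) := by
    have h1 : (n : ℝ) < 131072 * G * (Δ + 1) := by exact_mod_cast hΔ
    rw [hn'] at h1
    have h2 : (131072 * G : ℝ) * (16 * u) < 131072 * G * (Δ + 1) := by linarith
    have h3 := lt_of_mul_lt_mul_left h2 (by positivity)
    linarith
  push_cast at a2 ⊢
  linarith

/-- The exceptional part is small. -/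
theorem exc_le4 {k' y n r ℓ σ e Δ v h d D E C1 C2 C3 W G t b : ℕ} (hk : 1 ≤ k') (hh : 1 ≤ h)
    (hd : d = dx (2 * k') y) (hD : D = 2 ^ d) (hE : E = 2 ^ y) (ht1 : 1 ≤ t) (hG : G = D * t)
    (hbE : 33554432 * (b * t) ≤ E) (hb : 1048576 * G ≤ 2 ^ b)
    (hC1 : C1 = 64 * k' * E ^ 2 * D ^ 2) (hC2 : C2 = 2 * 4 ^ ee (2 * k') y * (4 + 2 * k'))
    (hW : W = 1048576 * G * ((C3 + 1) * ((2 * k' + 1) * C2 + 1)))
    (hℓ1 : 1 ≤ ℓ) (hℓ : C1 * h * ℓ ≤ n)
    (hr : r + 1 ≤ C3 * h) (hσ : σ = C2 * h) (hWh : W * (h * (Nat.log 2 n + 1)) ≤ n)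
    (hn : 2097152 * G ≤ n)
    (he : E * D * e ≤ 16 * n) (hΔ : n < 131072 * G * (Δ + 1))
    (hI : (Idx n e).card * 2 ^ (b * n) ≤ 2 ^ (b * e) * (2 ^ b + 2) ^ n)
    (hv : (v : ℝ) ≤ 2 ^ ((n : ℝ) / (W * h))) :
    exc2 k' y n r ℓ σ e (3 * Δ) v ≤ 1 / 2 * (1 / 2) ^ h := by
  have hD1 : 1 ≤ D := by
    rw [hD]
    exact Nat.one_le_two_pow
  have hG1 : 1 ≤ G := by
    rw [hG]
    exact Nat.mul_le_mul hD1 ht1
  have t1 := term1' (k' := k') (h := h) (a := 4 ^ ee (2 * k') y) (σ := σ) hk hh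
    (Nat.one_le_pow _ _ (by norm_num)) (by rw [hσ, hC2])
  have hB : (0 : ℝ) < 16 * k' * (2 ^ y) ^ 2 * (2 ^ dx (2 * k') y) ^ 2 * ℓ := by
    have h1 : (0 : ℝ) < ℓ := by exact_mod_cast hℓ1
    have h2 : (0 : ℝ) < k' := by exact_mod_cast hk
    positivity
  have t2 := term2' (h := h) (A := (n : ℝ) / (16 * k' * (2 ^ y) ^ 2 *
      (2 ^ dx (2 * k') y) ^ 2 * ℓ)) (B := 16 * k' * (2 ^ y) ^ 2 * (2 ^ dx (2 * k') y) ^ 2 * ℓ)
    (n := n) hh hB (by
      have h1 : 4 * h * (16 * k' * (2 ^ y) ^ 2 * (2 ^ dx (2 * k') y) ^ 2 * ℓ) ≤ n := by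
        refine le_trans (le_of_eq ?_) hℓ
        rw [hC1, hE, hD, hd]
        ring
      exact_mod_cast h1) rfl
  have hlog : 1 ≤ Nat.log 2 n + 1 := by omega
  have hW1 : 1 ≤ W := by
    rw [hW]
    have : 0 < 1048576 * G * ((C3 + 1) * ((2 * k' + 1) * C2 + 1)) := by positivity
    exact this
  have hhn : h ≤ n := by
    refine le_trans ?_ hWh
    calc h = 1 * (h * 1) := by ring
      _ ≤ W * (h * (Nat.log 2 n + 1)) :=
        Nat.mul_le_mul hW1 (Nat.mul_le_mul_left _ hlog)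
  have hrp : (r + 1) ^ ((2 * k' + 1) * σ) ≤
      2 ^ ((C3 + 1) * (Nat.log 2 n + 1) * ((2 * k' + 1) * σ)) := by
    rw [pow_mul 2]
    apply Nat.pow_le_pow_left
    have h1 : n < 2 ^ (Nat.log 2 n + 1) := Nat.lt_pow_succ_log_self (by norm_num) n
    have h2 : C3 ≤ 2 ^ C3 := (Nat.lt_two_pow_self).le
    calc r + 1 ≤ C3 * h := hr
      _ ≤ 2 ^ C3 * 2 ^ (Nat.log 2 n + 1) := Nat.mul_le_mul h2 (hhn.trans h1.le)
      _ = 2 ^ (C3 + (Nat.log 2 n + 1)) := (pow_add _ _ _).symm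
      _ ≤ 2 ^ ((C3 + 1) * (Nat.log 2 n + 1)) := by
        apply Nat.pow_le_pow_right (by norm_num)
        nlinarith
  have t3 := term3' (r := r) (v := v) (n := n) (Δ := 3 * Δ) (b := b) (e := e)
    (I := (Idx n e).card) (a := (2 * k' + 1) * σ) (h := h) (γ := 1 / (W * h)) hI (by
      refine hv.trans (le_of_eq ?_)
      congr 1
      ring) hrp (expo4 hD1 ht1 hG hbE hb hW hh hlog hWh hn hr hσ he hΔ)
  unfold exc2
  push_cast at t1 t2
  have h3 : (0 : ℝ) ≤ (1 / 2) ^ h := by positivity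
  linarith

/-- The advantage. -/
theorem adv4 {n g x w : ℕ} {ex a b κ N q ε : ℝ} {h : ℕ} (hg : 1 ≤ g)
    (hng : n ≤ 2 ^ g) (hw : w = x / (2 * g)) (hx : 64 * x ≤ n) (hgn : 64 * g ≤ n)
    (hex : ex ≤ 1 / 2 * (1 / 2) ^ h) (hex0 : 0 ≤ ex) (hb : 0 ≤ b)
    (hκ : κ = 2 * w + 2) (hN : N = 2 ^ g) (hq : q = 2 ^ (2 * g))
    (hε : ε = 1 / q ^ 2)
    (hmain : (1 - κ / N) * (1 - (1 + ε) * (N / q)) * a ≤ (1 + ε) * b + ex) :
    a ≤ (1 + (n : ℝ) / g * (1 / 2) ^ g) * b + (1 / 2) ^ h := by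
  have hgr : (1 : ℝ) ≤ g := by exact_mod_cast hg
  obtain ⟨t, ht⟩ : ∃ t : ℝ, t = (1 / 2) ^ g := ⟨_, rfl⟩
  have ht0 : 0 < t := by rw [ht]; positivity
  have ht1 : t ≤ 1 := by
    rw [ht]
    exact pow_le_one₀ (by norm_num) (by norm_num)
  have hinv : (2 : ℝ) ^ g = 1 / t := by
    rw [ht, one_div_pow, one_div_one_div]
  have hqt : q = 1 / t ^ 2 := by
    rw [hq, mul_comm 2 g, pow_mul, hinv, div_pow, one_pow]
  have e1 : N / q = t := by
    rw [hN, hqt, hinv]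
    field_simp
  have hε0 : 0 ≤ ε := by
    rw [hε]
    positivity
  have e2 : ε ≤ t := by
    rw [hε, hqt]
    have h2 : 1 / ((1 / t ^ 2) ^ 2) = t ^ 4 := by
      field_simp
    rw [h2]
    have h6 : t ^ 3 ≤ 1 := pow_le_one₀ ht0.le ht1
    calc t ^ 4 = t * t ^ 3 := by ring
      _ ≤ t * 1 := mul_le_mul_of_nonneg_left h6 ht0.le
      _ = t := mul_one t
  have e3 : κ ≤ x / g + 2 := by
    have h1 : (w : ℝ) ≤ x / (2 * g) := by
      rw [hw]
      refine (Nat.cast_div_le (α := ℝ)).trans (le_of_eq ?_)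
      push_cast
      ring
    have h2 : (x : ℝ) / g = 2 * (x / (2 * g)) := by
      field_simp
    rw [hκ, h2]
    linarith
  have hκ0 : 0 ≤ κ := by
    rw [hκ]
    positivity
  -- the main numerical condition
  have e4 : 2 * κ + 6 ≤ n / g := by
    have h0 : 2 * κ + 6 ≤ 10 + 2 * (x : ℝ) / g := by
      have : 2 * (x : ℝ) / g = 2 * (x / g) := by ring
      rw [this]
      linarith
    refine h0.trans ?_
    rw [← sub_nonneg]
    have h1 : (n : ℝ) / g - (10 + 2 * (x : ℝ) / g) = (n - (10 * g + 2 * x)) / g := by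
      field_simp
    rw [h1]
    apply div_nonneg _ (by linarith)
    have h2 : ((64 * x : ℕ) : ℝ) ≤ n := by exact_mod_cast hx
    have h3 : ((64 * g : ℕ) : ℝ) ≤ n := by exact_mod_cast hgn
    push_cast at h2 h3
    have h5 : (0 : ℝ) ≤ x := Nat.cast_nonneg _
    linarith
  have e5 : (n : ℝ) / g * t ≤ 1 := by
    have h1 : (n : ℝ) ≤ 1 / t := by
      rw [← hinv]
      exact_mod_cast hng
    have h2 : (n : ℝ) * t ≤ 1 := by
      have := mul_le_mul_of_nonneg_right h1 ht0.le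
      rwa [one_div_mul_cancel ht0.ne'] at this
    rw [div_mul_eq_mul_div, div_le_one (by linarith)]
    linarith
  obtain ⟨δ, hδ⟩ : ∃ δ : ℝ, δ = (n : ℝ) / g * t := ⟨_, rfl⟩
  have e6 : (2 * κ + 6) * t ≤ δ := by
    rw [hδ]
    exact mul_le_mul_of_nonneg_right e4 ht0.le
  rw [e1] at hmain
  have hκN : κ / N = κ * t := by
    rw [hN, hinv]
    field_simp
  rw [hκN] at hmain
  rw [← ht, ← hδ]
  rw [← hδ] at e5
  have hRHS : 0 ≤ (1 + δ) * b + (1 / 2) ^ h := by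
    have : 0 ≤ δ := by
      rw [hδ]
      positivity
    positivity
  rcases le_or_gt a 0 with ha | ha
  · linarith
  -- eta
  obtain ⟨η, hη⟩ : ∃ η : ℝ, η = κ * t + (1 + ε) * t := ⟨_, rfl⟩
  have hη0 : 0 ≤ η := by
    rw [hη]
    positivity
  have hη1 : 2 * η + 2 * ε ≤ δ := by
    have h1 : ε * t ≤ 1 * t := mul_le_mul_of_nonneg_right (e2.trans ht1) ht0.le
    have h2 : (2 * κ + 6) * t = 2 * (κ * t) + 6 * t := by ring
    have h3 : η = κ * t + t + ε * t := by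
      rw [hη]
      ring
    rw [h2] at e6
    linarith
  have g1 : (1 - η) * a ≤ (1 + ε) * b + ex := by
    refine le_trans (mul_le_mul_of_nonneg_right ?_ ha.le) hmain
    have h1 : (1 - κ * t) * (1 - (1 + ε) * t) = 1 - η + κ * t * ((1 + ε) * t) := by
      rw [hη]
      ring
    rw [h1]
    have : 0 ≤ κ * t * ((1 + ε) * t) := by positivity
    linarith
  have hη2 : η ≤ 1 / 2 := by linarith
  have g2 : a ≤ (1 + 2 * η) * ((1 + ε) * b + ex) := by
    have h1 : a ≤ (1 + 2 * η) * ((1 - η) * a) := by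
      have h2 : (1 + 2 * η) * ((1 - η) * a) = a + η * (1 - 2 * η) * a := by ring
      rw [h2]
      have : 0 ≤ η * (1 - 2 * η) * a :=
        mul_nonneg (mul_nonneg hη0 (by linarith)) ha.le
      linarith
    exact h1.trans (mul_le_mul_of_nonneg_left g1 (by linarith))
  have g3 : (1 + 2 * η) * (1 + ε) ≤ 1 + δ := by
    have h1 : 2 * η * ε ≤ 1 * ε := mul_le_mul_of_nonneg_right (by linarith) hε0
    have h2 : (1 + 2 * η) * (1 + ε) = 1 + 2 * η + ε + 2 * η * ε := by ring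
    rw [h2]
    linarith
  have g4 : (1 + 2 * η) * ex ≤ (1 / 2) ^ h := by
    have h1 : (1 + 2 * η) * ex ≤ 2 * ex := mul_le_mul_of_nonneg_right (by linarith) hex0
    linarith
  calc a ≤ (1 + 2 * η) * ((1 + ε) * b + ex) := g2
    _ = (1 + 2 * η) * (1 + ε) * b + (1 + 2 * η) * ex := by ring
    _ ≤ (1 + δ) * b + (1 / 2) ^ h := add_le_add (mul_le_mul_of_nonneg_right g3 hb) g4

/-- Side conditions. -/
theorem side4 {n g x w : ℕ} {κ N q ε : ℝ} (hg : 1 ≤ g)
    (hng : n ≤ 2 ^ g) (hw : w = x / (2 * g)) (hx : 64 * x ≤ n) (hgn : 64 * g ≤ n)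
    (hκ : κ = 2 * w + 2) (hN : N = 2 ^ g) (hq : q = 2 ^ (2 * g))
    (hε : ε = 1 / q ^ 2) : κ ≤ N ∧ (1 + ε) * N ≤ q := by
  constructor
  · have h1 : 2 * w + 2 ≤ n := by
      have h2 : w ≤ x / 2 := by
        rw [hw]
        exact Nat.div_le_div_left (by omega) (by norm_num)
      omega
    have h8 : ((2 * w + 2 : ℕ) : ℝ) ≤ ((2 ^ g : ℕ) : ℝ) := by exact_mod_cast h1.trans hng
    push_cast at h8
    rw [hκ, hN]
    exact h8
  · have hq1 : (1 : ℝ) ≤ q := by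
      rw [hq]
      exact one_le_pow₀ (by norm_num)
    have h1 : ε ≤ 1 := by
      rw [hε, div_le_one (by positivity)]
      exact one_le_pow₀ hq1
    have h2 : q = N * N := by
      rw [hq, hN, ← pow_add]
      congr 1
      ring
    have hN0 : (0 : ℝ) < N := by
      rw [hN]
      positivity
    have h3 : (2 : ℝ) ≤ N := by
      rw [hN]
      calc (2 : ℝ) = 2 ^ 1 := by norm_num
        _ ≤ 2 ^ g := pow_le_pow_right₀ (by norm_num) hg
    rw [h2]
    exact mul_le_mul_of_nonneg_right (by linarith) hN0.le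

/-- The parameters are bounded by a power of `2 ^ (k ^ 3)`. -/
theorem par6 {J : ℕ} (hJ : 2 ≤ J) : ∃ y : ℕ,
    33554432 * ((2 * dx J y + 32) * (4 * dx J y + 32)) ≤ 2 ^ y ∧ dx J y ≤ 688 * J ^ 3 := by
  obtain ⟨a, ha1, ha2⟩ : ∃ a : ℕ, J ≤ 2 ^ a ∧ 2 ^ a < 2 * J := by
    have hex : ∃ n : ℕ, J ≤ 2 ^ n := ⟨J, Nat.lt_two_pow_self.le⟩
    refine ⟨Nat.find hex, Nat.find_spec hex, ?_⟩
    have h2 : Nat.find hex ≠ 0 := by
      intro h0
      have h1 := Nat.find_spec hex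
      rw [h0, pow_zero] at h1
      omega
    obtain ⟨j, hj⟩ := Nat.exists_eq_succ_of_ne_zero h2
    have h3 := Nat.find_min hex (m := j) (by omega)
    rw [hj, Nat.succ_eq_add_one, pow_succ]
    omega
  obtain ⟨b, hb⟩ : ∃ b : ℕ, b = 2 ^ a := ⟨_, rfl⟩
  rw [← hb] at ha1 ha2
  have hab : a ≤ b := by rw [hb]; exact Nat.lt_two_pow_self.le
  have hl : lam J (8 * a + 60) ≤ 42 * b := by unfold lam; omega
  have hJb : J ^ 2 ≤ b ^ 2 := Nat.pow_le_pow_left ha1 2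
  have h1 : lam J (8 * a + 60) * J ^ 2 ≤ 42 * b * b ^ 2 := Nat.mul_le_mul hl hJb
  have hb2 : 2 ≤ b := by omega
  have hb3 : 4 * b ≤ b ^ 3 := by
    have : b ^ 3 = b * b * b := by ring
    rw [this]
    have h4 : 2 * 2 ≤ b * b := Nat.mul_le_mul hb2 hb2
    nlinarith
  have h5 : dx J (8 * a + 60) ≤ 86 * b ^ 3 := by
    unfold dx
    have e1 : 2 * lam J (8 * a + 60) * J ^ 2 = 2 * (lam J (8 * a + 60) * J ^ 2) := by ring
    have e2 : 42 * b * b ^ 2 = 42 * b ^ 3 := by ring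
    rw [e1]
    rw [e2] at h1
    omega
  refine ⟨8 * a + 60, ?_, ?_⟩
  · calc 33554432 * ((2 * dx J (8 * a + 60) + 32) * (4 * dx J (8 * a + 60) + 32)) ≤
        33554432 * ((176 * b ^ 3) * (348 * b ^ 3)) :=
          Nat.mul_le_mul_left _ (Nat.mul_le_mul (by omega) (by omega))
      _ = 2055141851136 * b ^ 6 := by ring
      _ ≤ 1152921504606846976 * b ^ 8 := by
        apply Nat.mul_le_mul (by norm_num)
        exact Nat.pow_le_pow_right (by omega) (by norm_num)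
      _ = 2 ^ (8 * a + 60) := by
        rw [hb, ← pow_mul, pow_add]
        have : (2 : ℕ) ^ 60 = 1152921504606846976 := by norm_num
        rw [this, Nat.mul_comm a 8]
        ring
  · have h6 : b ^ 3 ≤ (2 * J) ^ 3 := Nat.pow_le_pow_left ha2.le 3
    have h7 : (2 * J) ^ 3 = 8 * J ^ 3 := by ring
    omega

/-- The size of `W`. -/
theorem size_Y {k k' y d D E C1 C2 C3 W G t : ℕ} (hk' : k' = k + 2) (hd : d = dx (2 * k') y)
    (hd2 : d ≤ 688 * (2 * k') ^ 3) (hD : D = 2 ^ d) (hE : E = 2 ^ y) (ht : t = 4 * d + 32)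
    (hG : G = D * t)
    (hC1 : C1 = 64 * k' * E ^ 2 * D ^ 2) (hC2 : C2 = 2 * 4 ^ ee (2 * k') y * (4 + 2 * k'))
    (hC3 : C3 = 2 * C1 * (k + 1) + 2)
    (hW : W = 1048576 * G * ((C3 + 1) * ((2 * k' + 1) * C2 + 1))) :
    W ≤ 2 ^ (131072 * (k + 2) ^ 3) ∧ C1 ≤ W ∧ 1048576 * G * (t + 1) ≤ W ∧
      2097152 * G ≤ W := by
  have hdd : d = 2 * (lam (2 * k') y * (2 * k') ^ 2) + 2 * (2 * k') + 4 := by
    rw [hd]
    unfold dx
    ring
  have hlam : lam (2 * k') y = 2 * (2 * k') + y + 3 := rfl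
  obtain ⟨l, hl⟩ : ∃ l, l = lam (2 * k') y := ⟨_, rfl⟩
  rw [← hl] at hdd hlam
  have hlJ : 16 * l ≤ l * (2 * k') ^ 2 := by
    have h1 : 16 ≤ (2 * k') ^ 2 := by
      have : 4 ≤ 2 * k' := by omega
      calc 16 = 4 ^ 2 := by norm_num
        _ ≤ (2 * k') ^ 2 := Nat.pow_le_pow_left this 2
    calc 16 * l = l * 16 := Nat.mul_comm _ _
      _ ≤ _ := Nat.mul_le_mul_left _ h1
  have hee : ee (2 * k') y = d + l + 2 := by
    unfold ee
    rw [hdd, ← hl]
    ring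
  have hyd : y ≤ d := by omega
  have hkd : 2 * k' + 4 ≤ d := by omega
  have hld : l + 2 ≤ d := by omega
  have hdD : d < D := by
    rw [hD]
    exact Nat.lt_two_pow_self
  have hED : E ≤ D := by
    rw [hE, hD]
    exact Nat.pow_le_pow_right (by norm_num) hyd
  have hD1 : 1 ≤ D := by omega
  have hD33 : 33 ≤ D := by omega
  have b1 : C1 ≤ 64 * D ^ 5 := by
    rw [hC1]
    calc 64 * k' * E ^ 2 * D ^ 2 ≤ 64 * D * D ^ 2 * D ^ 2 :=
          Nat.mul_le_mul_right _ (Nat.mul_le_mul (Nat.mul_le_mul_left _ (by omega))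
            (Nat.pow_le_pow_left hED 2))
      _ = 64 * D ^ 5 := by ring
  have b2 : C2 ≤ 2 * D ^ 5 := by
    have h1 : 4 ^ ee (2 * k') y ≤ D ^ 4 := by
      have h2 : (4 : ℕ) = 2 ^ 2 := by norm_num
      rw [hee, hD, ← pow_mul, h2, ← pow_mul]
      exact Nat.pow_le_pow_right (by norm_num) (by omega)
    rw [hC2]
    calc 2 * 4 ^ ee (2 * k') y * (4 + 2 * k') ≤ 2 * D ^ 4 * D :=
          Nat.mul_le_mul (Nat.mul_le_mul_left _ h1) (by omega)
      _ = 2 * D ^ 5 := by ring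
  have hD6 : 1 ≤ D ^ 6 := Nat.one_le_pow _ _ hD1
  have b3 : C3 ≤ 131 * D ^ 6 := by
    rw [hC3]
    have h1 : 2 * C1 * (k + 1) ≤ 2 * (64 * D ^ 5) * D :=
      Nat.mul_le_mul (Nat.mul_le_mul_left _ b1) (by omega)
    have h2 : 2 * (64 * D ^ 5) * D = 128 * D ^ 6 := by ring
    omega
  have b4 : (2 * k' + 1) * C2 ≤ 2 * D ^ 6 := by
    calc (2 * k' + 1) * C2 ≤ D * (2 * D ^ 5) := Nat.mul_le_mul (by omega) b2
      _ = 2 * D ^ 6 := by ring
  have ht1 : t ≤ 36 * D := by omega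
  have b5 : W ≤ 2 ^ 40 * D ^ 14 := by
    rw [hW, hG]
    calc 1048576 * (D * t) * ((C3 + 1) * ((2 * k' + 1) * C2 + 1)) ≤
        1048576 * (D * (36 * D)) * ((512 * D ^ 6) * (4 * D ^ 6)) :=
          Nat.mul_le_mul (Nat.mul_le_mul_left _ (Nat.mul_le_mul_left _ ht1))
            (Nat.mul_le_mul (by omega) (by omega))
      _ = 77309411328 * D ^ 14 := by ring
      _ ≤ 2 ^ 40 * D ^ 14 := Nat.mul_le_mul_right _ (by norm_num)
  have ht0 : 1 ≤ t := by omega
  have hG1 : 1 ≤ G := by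
    rw [hG]
    exact Nat.mul_le_mul hD1 ht0
  have hC2D : 2 * (D * D) ≤ C2 := by
    have h1 : D * D ≤ 4 ^ ee (2 * k') y := by
      have h2 : (4 : ℕ) = 2 ^ 2 := by norm_num
      rw [hee, hD, ← pow_add, h2, ← pow_mul]
      exact Nat.pow_le_pow_right (by norm_num) (by omega)
    rw [hC2]
    calc 2 * (D * D) = 2 * (D * D) * 1 := (Nat.mul_one _).symm
      _ ≤ 2 * 4 ^ ee (2 * k') y * (4 + 2 * k') :=
        Nat.mul_le_mul (Nat.mul_le_mul_left _ h1) (by omega)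
  have ht2 : t + 1 ≤ C2 := by
    refine le_trans ?_ hC2D
    have h1 : 33 * D ≤ D * D := Nat.mul_le_mul_right _ hD33
    omega
  have hC2' : C2 ≤ (C3 + 1) * ((2 * k' + 1) * C2 + 1) := by
    calc C2 = 1 * (1 * C2) := by ring
      _ ≤ (C3 + 1) * ((2 * k' + 1) * C2 + 1) := by
        apply Nat.mul_le_mul (by omega)
        exact (Nat.mul_le_mul_right _ (by omega)).trans (Nat.le_succ _)
  have hC1C : C1 ≤ C3 := by
    rw [hC3]
    calc C1 = C1 * 1 := (mul_one _).symm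
      _ ≤ C1 * (2 * (k + 1)) := Nat.mul_le_mul_left _ (by omega)
      _ = 2 * C1 * (k + 1) := by ring
      _ ≤ _ := Nat.le_add_right _ _
  refine ⟨b5.trans ?_, ?_, ?_, ?_⟩
  · have h1 : (2 : ℕ) ^ 40 * D ^ 14 = 2 ^ (40 + 14 * d) := by
      rw [hD, ← pow_mul, pow_add]
      congr 2
      ring
    rw [h1]
    apply Nat.pow_le_pow_right (by norm_num)
    have h2 : (2 * k') ^ 3 = 8 * (k + 2) ^ 3 := by
      rw [hk']
      ring
    have h3 : 1 ≤ (k + 2) ^ 3 := Nat.one_le_pow _ _ (by omega)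
    omega
  · rw [hW]
    calc C1 = 1 * (C1 * 1) := by ring
      _ ≤ 1048576 * G * ((C3 + 1) * ((2 * k' + 1) * C2 + 1)) :=
        Nat.mul_le_mul (by omega) (Nat.mul_le_mul (by omega) (by omega))
  · rw [hW]
    exact Nat.mul_le_mul_left _ (ht2.trans hC2')
  · rw [hW]
    calc 2097152 * G = 1048576 * G * 2 := by ring
      _ ≤ 1048576 * G * ((C3 + 1) * ((2 * k' + 1) * C2 + 1)) :=
        Nat.mul_le_mul_left _ ((by omega : 2 ≤ C2).trans hC2')

/-- The conditions for the block Hankel matrix. -/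
theorem hnk_cond {n m d t T K ρ η m' : ℕ} (ht : t = 4 * d + 32) (hT : T = 128 * t)
    (hn : n < 2 * 2 ^ d * (m + 1)) (hK : 16 * T * (K * ρ) ≤ m) (hK1 : 64 * (t + 1) ≤ K * ρ)
    (hη : 192 * η ≤ ρ) (hm' : m' = m / T) :
    (t - 1) * (6 * K * ρ / T + 1) + 6 * K * η ≤ K * ρ / 8 ∧ T * m' ≤ m ∧
      4 * (n.choose m' * 2 ^ (t * (6 * K * ρ))) ≤ 2 ^ (t * m') := by
  obtain ⟨P, hP⟩ : ∃ P, P = K * ρ := ⟨_, rfl⟩
  have e6 : 6 * K * ρ = 6 * P := by
    rw [hP]
    ring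
  rw [← hP] at hK hK1 ⊢
  rw [e6]
  have hT0 : 0 < T := by omega
  have hm1 : T * m' ≤ m := by
    rw [hm']
    exact Nat.mul_div_le _ _
  have hm2 : m < T * (m' + 1) := by
    rw [hm']
    exact Nat.lt_mul_div_succ _ hT0
  refine ⟨?_, hm1, ?_⟩
  · have h1 : T * (6 * P / T) ≤ 6 * P := Nat.mul_div_le _ _
    have h2 : 128 * (t * (6 * P / T)) ≤ 6 * P := by
      calc 128 * (t * (6 * P / T)) = T * (6 * P / T) := by
            rw [hT]
            ring
        _ ≤ 6 * P := h1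
    have h3 : (t - 1) * (6 * P / T + 1) ≤ t * (6 * P / T) + t := by
      calc (t - 1) * (6 * P / T + 1) ≤ t * (6 * P / T + 1) := Nat.mul_le_mul_right _ (by omega)
        _ = _ := by ring
    have h4 : 32 * (6 * K * η) ≤ P := by
      calc 32 * (6 * K * η) = K * (192 * η) := by ring
        _ ≤ K * ρ := Nat.mul_le_mul_left _ hη
        _ = P := hP.symm
    omega
  · have h0 : 16 * P ≤ m' := by
      rw [hm', Nat.le_div_iff_mul_le hT0]
      calc 16 * P * T = 16 * T * P := by ring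
        _ ≤ m := hK
    have hTd : T ≤ 2 ^ (d + 13) := by
      have h1 : d + 1 ≤ 2 ^ d := Nat.lt_two_pow_self
      rw [pow_add]
      have h2 : (2 : ℕ) ^ 13 = 8192 := by norm_num
      rw [h2]
      omega
    have h1 : n.choose m' ≤ 2 ^ ((2 * d + 14) * m' + 2 * (m' + 1)) := by
      apply choose_bd2
      have h2 : m + 1 ≤ T * (m' + 1) := hm2
      calc n ≤ 2 * 2 ^ d * (m + 1) := hn.le
        _ ≤ 2 * 2 ^ d * (2 ^ (d + 13) * (m' + 1)) :=
          Nat.mul_le_mul_left _ (h2.trans (Nat.mul_le_mul_right _ hTd))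
        _ = 2 ^ (2 * d + 14) * (m' + 1) := by
          have : (2 : ℕ) ^ (2 * d + 14) = 2 * 2 ^ d * 2 ^ (d + 13) := by
            rw [← pow_succ', ← pow_add]
            congr 1
            ring
          rw [this]
          ring
    calc 4 * (n.choose m' * 2 ^ (t * (6 * P))) ≤
        2 ^ 2 * (2 ^ ((2 * d + 14) * m' + 2 * (m' + 1)) * 2 ^ (t * (6 * P))) :=
          Nat.mul_le_mul (by norm_num) (Nat.mul_le_mul_right _ h1)
      _ = 2 ^ (2 + ((2 * d + 14) * m' + 2 * (m' + 1) + t * (6 * P))) := by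
        rw [← pow_add, ← pow_add]
      _ ≤ 2 ^ (t * m') := by
        apply Nat.pow_le_pow_right (by norm_num)
        have e1 : t * m' = 4 * (d * m') + 32 * m' := by
          rw [ht]
          ring
        have e2 : (2 * d + 14) * m' = 2 * (d * m') + 14 * m' := by ring
        have e3 : t * (6 * P) = 24 * (d * P) + 192 * P := by
          rw [ht]
          ring
        have e4 : 16 * (d * P) ≤ d * m' := by
          calc 16 * (d * P) = d * (16 * P) := by ring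
            _ ≤ d * m' := Nat.mul_le_mul_left _ h0
        rw [e1, e2, e3]
        omega

end Pool.Agent.L0h58.HY
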