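import Pool.Agent.L0h58.HX.Res
import Pool.Agent.L0h58.HM.Stm

/-!
# An explicit function for bounded nondeterminism: statements of the parts
-/

set_option autoImplicit false

namespace Pool.Agent.L0h58.HY

open Finset Polynomial Pool.Agent.L0h32.LT Pool.Agent.L0h32.LT2 Pool.Agent.L0h58.HN
  Pool.Agent.L0h58.HM Pool.Agent.L0h58.HX

/-! ### Block Hankel matrices -/

/-- The block of the coefficient `d` of the form `c`. -/
def bpos (K : ℕ) (d : Fin K) (c : Fin 6) : ℕ := (c : ℕ) * K + (K - 1 - d)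

/-- The block Hankel matrix: the row of the bit `i = η i₁ + i₂`, `i₂ < η`, consists of the coordinates
of `θ ^ i₂ * S (i₁ + bpos K d c)`. -/
noncomputable def bhank {F : Type} [Field F] [Algebra (ZMod 2) F] {n K ρ : ℕ} (η : ℕ)
    (e : (Fin ρ → ZMod 2) ≃ₗ[ZMod 2] F) (θ : F) (S : ℕ → F) (i : Fin n)
    (p : Fin K × Fin 6 × Fin ρ) : ZMod 2 :=
  e.symm (θ ^ ((i : ℕ) % η) * S ((i : ℕ) / η + bpos K p.1 p.2.1)) p.2.2

/-- The coordinates with respect to the powers of `θ`. -/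
def PowBasis {F : Type} [Field F] [Algebra (ZMod 2) F] {ρ : ℕ}
    (e : (Fin ρ → ZMod 2) ≃ₗ[ZMod 2] F) (θ : F) : Prop :=
  ∀ v, e v = ∑ a : Fin ρ, v a • θ ^ (a : ℕ)

/-- The position of a row. -/
def bp (η ρ i : ℕ) : ℕ := i / η * ρ + i % η

/-- The position of a coordinate. -/
def blead {K ρ : ℕ} (p : Fin K × Fin 6 × Fin ρ) : ℕ := bpos K p.1 p.2.1 * ρ + (ρ - 1 - p.2.2)

/-- Extension by zero. -/
def extS {F : Type} [Zero F] {R : ℕ} (S : Fin R → F) (j : ℕ) : F := if h : j < R then S ⟨j, h⟩ else 0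

open Classical in
/-- **HNKA.** Independence of the equations with different leading positions. -/
def S_HNKA : Prop :=
  ∀ (n η K ρ R t : ℕ) (F : Type) [Field F] [Fintype F] [Algebra (ZMod 2) F]
    (e : (Fin ρ → ZMod 2) ≃ₗ[ZMod 2] F) (θ : F), PowBasis e θ → 1 ≤ η → η ≤ ρ →
    n / η + 6 * K < R → ∀ (A : Finset (Fin n)) (Y : Fin t → (Fin K × Fin 6 × Fin ρ → ZMod 2))
      (b : Fin t → Fin K × Fin 6 × Fin ρ),
      (∀ j, Y j (b j) ≠ 0 ∧ ∀ b', blead (b j) < blead b' → Y j b' = 0) →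
      (∀ j, η ≤ ((b j).2.2 : ℕ)) →
      (∀ i ∈ A, ∀ j, ∀ i' ∈ A, ∀ j', bp η ρ i + blead (b j) = bp η ρ i' + blead (b j') →
        i = i' ∧ j = j') →
      (univ.filter fun S : Fin R → F => ∀ i ∈ A, ∀ j,
        Y j ⬝ᵥ bhank η e θ (extS S) i = 0).card * 2 ^ (t * A.card) ≤ Fintype.card F ^ R

open Classical in
/-- **HNKB.** Independence of all the equations for one vector. -/
def S_HNKB : Prop :=
  ∀ (n η K ρ R : ℕ) (F : Type) [Field F] [Fintype F] [Algebra (ZMod 2) F]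
    (e : (Fin ρ → ZMod 2) ≃ₗ[ZMod 2] F) (θ : F), PowBasis e θ → 1 ≤ η → η ≤ ρ →
    n / η + 6 * K < R → ∀ (A : Finset (Fin n)) (Y : Fin K × Fin 6 × Fin ρ → ZMod 2), Y ≠ 0 →
      (univ.filter fun S : Fin R → F => ∀ i ∈ A,
        Y ⬝ᵥ bhank η e θ (extS S) i = 0).card * 2 ^ A.card ≤ Fintype.card F ^ R

/-- **HNK.** Large sets of rows of a random block Hankel matrix have almost full rank, and the two
halves have full rank. -/
def S_HNK : Prop :=
  ∀ (n η K ρ m m' s t T : ℕ) (F : Type) [Field F] [Fintype F] [Algebra (ZMod 2) F]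
    (e : (Fin ρ → ZMod 2) ≃ₗ[ZMod 2] F) (θ : F), PowBasis e θ → 1 ≤ η → η ≤ ρ → 1 ≤ t → 1 ≤ T →
    (t - 1) * (6 * K * ρ / T + 1) + 6 * K * η ≤ s → T * m' ≤ m →
    4 * (n.choose m' * 2 ^ (t * (6 * K * ρ))) ≤ 2 ^ (t * m') → 6 * K * ρ + 3 ≤ n / 2 →
    ∃ S : ℕ → F,
      (∀ A : Finset (Fin n), m ≤ A.card → K * (6 * ρ) ≤ Module.finrank (ZMod 2)
        (Submodule.span (ZMod 2) ((bhank η e θ S : Fin n → (Fin K × Fin 6 × Fin ρ → ZMod 2)) '' A))
          + s) ∧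
      K * (6 * ρ) ≤ Module.finrank (ZMod 2) (Submodule.span (ZMod 2)
        ((bhank η e θ S : Fin n → (Fin K × Fin 6 × Fin ρ → ZMod 2)) '' {i | (i : ℕ) < n / 2})) ∧
      K * (6 * ρ) ≤ Module.finrank (ZMod 2) (Submodule.span (ZMod 2)
        ((bhank η e θ S : Fin n → (Fin K × Fin 6 × Fin ρ → ZMod 2)) '' {i | ¬ (i : ℕ) < n / 2}))

/-! ### The function -/

section

variable {R : Type} [CommRing R] (θ a : R) (n ρ : ℕ) (b : ℕ → Bool)

/-- The element with the index `τ` of the block `i`. -/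
def ch (i τ : ℕ) : R := ∑ j ∈ range ρ, bv (b (n + (13 * i + τ) * ρ + j)) * θ ^ j

/-- The value at `a` of the polynomial given by the first `n` bits. -/
def pa : R := ∑ i ∈ range n, bv (b i) * a ^ i

/-- The windows. -/
def wn (c : ℕ) : ℕ → R
  | 0 => 0
  | i + 1 => a * wn c i + ch θ n ρ b i c + ch θ n ρ b i (6 + c) * pa a n b

/-- The sums of the windows. -/
def ac (c : ℕ) : ℕ → R
  | 0 => 0
  | i + 1 => ac c i + ch θ n ρ b i 12 * wn θ a n ρ b c (i + 1)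

/-- The value of the quadratic form. -/
def vq : R :=
  ac θ a n ρ b 0 n * ac θ a n ρ b 3 n + ac θ a n ρ b 1 n * ac θ a n ρ b 4 n +
    ac θ a n ρ b 2 n * ac θ a n ρ b 5 n

end

/-- The polynomial over `𝔽₂` whose coefficients are the binary digits of `m`. -/
noncomputable def code (m : ℕ) : (ZMod 2)[X] :=
  ∑ i ∈ range m, if m.testBit i = true then X ^ i else 0

/-- The first irreducible polynomial of degree `ρ`. -/
noncomputable def irrPoly (ρ : ℕ) : (ZMod 2)[X] :=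
  code (sInf {m | Irreducible (code m) ∧ (code m).natDegree = ρ})

open Classical in
/-- The explicit function. -/
noncomputable def fx (N g : ℕ) (y : Fin N → Bool) : Bool :=
  decide (∃ u : Fin g → Bool, irrPoly (2 * g) ∣ vq (X : (ZMod 2)[X])
    (∑ j : Fin g, bv (u j) * X ^ (j : ℕ)) (N / (26 * g + 1)) (2 * g) (bit y))

/-- **FLD.** The field. -/
def S_FLD : Prop :=
  ∀ ρ : ℕ, 1 ≤ ρ → ∃ (F : Type) (_ : Field F) (_ : Fintype F) (_ : Algebra (ZMod 2) F)
    (e : (Fin ρ → ZMod 2) ≃ₗ[ZMod 2] F) (θ : F), Fintype.card F = 2 ^ ρ ∧ PowBasis e θ ∧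
      ∀ q : (ZMod 2)[X], irrPoly ρ ∣ q ↔ aeval θ q = 0

/-- **NONX.** The function is computed in one pass with `g` guesses: guess `u`, let
`a = ∑ u_j θ ^ j`; the state is `u`, `pa`, six windows and six sums. -/
def S_NONX : Prop := ∀ N g : ℕ, 1 ≤ g → NonP N g (2 ^ (27 * g)) (fx N g)

/-- **EXPL.** The function contains the functions given by the block Hankel matrices. -/
def S_EXPL : Prop :=
  ∀ (N g n n₂ η K : ℕ) (F : Type) [Field F] [Fintype F] [Algebra (ZMod 2) F]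
    (e : (Fin (2 * g) → ZMod 2) ≃ₗ[ZMod 2] F) (θ : F), PowBasis e θ → 1 ≤ K → 1 ≤ η →
    η ≤ 2 * g → 1 ≤ n₂ → K + n₂ ≤ n → n * (26 * g + 1) ≤ N → ∀ S : ℕ → F,
    ∃ (src : ℕ → Option (Fin (n₂ * η))) (cst : ℕ → Bool), ∀ (x : Inp (n₂ * η)) (a : F),
      vq θ a n (2 * g) (bit (ext src cst x : Inp N)) =
        qf (fun c => ∑ d : Fin K, a ^ (d : ℕ) *
          blk (bhank η e θ S : Fin (n₂ * η) → (Fin K × Fin 6 × Fin (2 * g) → ZMod 2)) e x d c)

/-- **RESB.** Restrictions preserve the bound (compare `restr_hardD` and `t_SELB2`). -/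
def S_RESB : Prop :=
  ∀ (N nn T : ℕ) (L δ ε : ℝ) (src : ℕ → Option (Fin nn)) (cst : ℕ → Bool) (f : Inp N → Bool)
    (h : Inp nn → Bool), 0 < nn → (∀ x, f (ext src cst x) = h x) →
      Blind2 nn T L δ ε h → Blind2 N T L δ ε f

end Pool.Agent.L0h58.HY
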